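import Pool.Agent.Hull42.Defs

/-! Basic facts on the model densities (MP_b478d8_an). -/

open MeasureTheory Set Filter Topology
open scoped ENNReal NNReal Real

namespace Pool.Agent.Hull42

theorem fr_cont (m : ℕ) : Continuous (fr m) := by
  unfold fr; fun_prop

theorem fa_cont (m : ℕ) (φ : ℝ) : Continuous (fa m φ) := by
  unfold fa; fun_prop

theorem fr_pos (m : ℕ) {r : ℝ} (hr : 0 < r) : 0 < fr m r := by
  unfold fr; positivity

theorem fr_nonneg (m : ℕ) {r : ℝ} (hr : 0 ≤ r) : 0 ≤ fr m r := by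
  unfold fr; positivity

theorem sin_sq_lt {φ θ : ℝ} (hφ : φ ≤ π / 2) (hθ : |θ| < φ) :
    Real.sin θ ^ 2 < Real.sin φ ^ 2 := by
  have h0 : 0 ≤ |θ| := abs_nonneg θ
  have h1 : Real.sin |θ| < Real.sin φ := by
    apply Real.sin_lt_sin_of_lt_of_le_pi_div_two _ hφ hθ
    linarith [Real.pi_pos]
  have h2 : 0 ≤ Real.sin |θ| := Real.sin_nonneg_of_nonneg_of_le_pi h0 (by linarith [Real.pi_pos])
  have h3 : Real.sin |θ| ^ 2 = Real.sin θ ^ 2 := by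
    rcases abs_choice θ with h | h <;> rw [h]
    rw [Real.sin_neg]; ring
  rw [← h3]
  exact pow_lt_pow_left₀ h1 h2 (by norm_num)

theorem sin_sq_le {φ θ : ℝ} (hφ : φ ≤ π / 2) (hθ : |θ| ≤ φ) :
    Real.sin θ ^ 2 ≤ Real.sin φ ^ 2 := by
  rcases hθ.lt_or_eq with h | h
  · exact (sin_sq_lt hφ h).le
  · rcases abs_choice θ with h' | h' <;> rw [← h, h']
    rw [Real.sin_neg]; simp

theorem fa_pos (m : ℕ) {φ θ : ℝ} (hφ : φ ≤ π / 2) (hθ : |θ| < φ) : 0 < fa m φ θ := by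
  unfold fa
  have := sin_sq_lt hφ hθ
  exact pow_pos (by linarith) _

theorem fa_nonneg (m : ℕ) {φ θ : ℝ} (hφ : φ ≤ π / 2) (hθ : |θ| ≤ φ) : 0 ≤ fa m φ θ := by
  unfold fa
  have := sin_sq_le hφ hθ
  exact pow_nonneg (by linarith) _

theorem Zr_pos (m : ℕ) {R : ℝ} (hR : 0 < R) : 0 < Zr m R := by
  unfold Zr
  apply intervalIntegral.intervalIntegral_pos_of_pos_on ((fr_cont m).intervalIntegrable _ _) _ hR
  intro x hx
  exact fr_pos m hx.1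

theorem Za_pos (m : ℕ) {φ : ℝ} (hφ : 0 < φ) (hφ' : φ ≤ π / 2) : 0 < Za m φ := by
  unfold Za
  apply intervalIntegral.intervalIntegral_pos_of_pos_on ((fa_cont m φ).intervalIntegrable _ _) _
    (by linarith)
  intro x hx
  exact fa_pos m hφ' (abs_lt.mpr ⟨hx.1, hx.2⟩)

theorem f0_cont (m : ℕ) (R : ℝ) : Continuous (f0 m R) := by
  unfold f0; exact (fr_cont m).div_const _

theorem w0_cont (m : ℕ) (φ : ℝ) : Continuous (w0 m φ) := by
  unfold w0; exact (fa_cont m φ).div_const _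

theorem f0_nonneg (m : ℕ) {R r : ℝ} (hR : 0 < R) (hr : 0 ≤ r) : 0 ≤ f0 m R r :=
  div_nonneg (fr_nonneg m hr) (Zr_pos m hR).le

theorem f0_pos (m : ℕ) {R r : ℝ} (hR : 0 < R) (hr : 0 < r) : 0 < f0 m R r :=
  div_pos (fr_pos m hr) (Zr_pos m hR)

theorem w0_nonneg (m : ℕ) {φ θ : ℝ} (hφ : 0 < φ) (hφ' : φ ≤ π / 2) (hθ : |θ| ≤ φ) :
    0 ≤ w0 m φ θ := div_nonneg (fa_nonneg m hφ' hθ) (Za_pos m hφ hφ').le

theorem w0_pos (m : ℕ) {φ θ : ℝ} (hφ : 0 < φ) (hφ' : φ ≤ π / 2) (hθ : |θ| < φ) :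
    0 < w0 m φ θ := div_pos (fa_pos m hφ' hθ) (Za_pos m hφ hφ')

theorem w0_even (m : ℕ) (φ θ : ℝ) : w0 m φ (-θ) = w0 m φ θ := by
  unfold w0 fa
  rw [Real.sin_neg]; ring_nf

theorem f0_int (m : ℕ) {R : ℝ} (hR : 0 < R) : ∫ r in (0 : ℝ)..R, f0 m R r = 1 := by
  unfold f0
  rw [intervalIntegral.integral_div]
  exact div_self (Zr_pos m hR).ne'

theorem w0_int (m : ℕ) {φ : ℝ} (hφ : 0 < φ) (hφ' : φ ≤ π / 2) :
    ∫ θ in (-φ)..φ, w0 m φ θ = 1 := by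
  unfold w0
  rw [intervalIntegral.integral_div]
  exact div_self (Za_pos m hφ hφ').ne'

theorem f0_mul_w0 (m : ℕ) (R φ r θ : ℝ) :
    f0 m R r * w0 m φ θ = (fr m r * fa m φ θ) / (Zr m R * Za m φ) := by
  unfold f0 w0
  rw [div_mul_div_comm]

end Pool.Agent.Hull42
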