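import Mathlib

/-! Definitions for MP_b478d8_an (convex hulls of isoperimetric sets in convex domains). -/

open MeasureTheory Set Filter Topology
open scoped ENNReal NNReal Real

namespace Pool.Agent.Hull42

/-- Euclidean `n`-space. -/
abbrev Sp (n : ℕ) := EuclideanSpace ℝ (Fin n)

/-- Divergence of a vector field. -/
noncomputable def dvg {n : ℕ} (X : Sp n → Sp n) (x : Sp n) : ℝ :=
  ∑ i, (fderiv ℝ X x (EuclideanSpace.single i 1)) i

/-- Test fields for the relative perimeter in `Ω`: `C¹` vector fields with compact support inside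
`Ω` and Euclidean norm at most one everywhere. -/
structure IsTestField {n : ℕ} (Ω : Set (Sp n)) (X : Sp n → Sp n) : Prop where
  contDiff : ContDiff ℝ 1 X
  hasCompactSupport : HasCompactSupport X
  tsupport_subset : tsupport X ⊆ Ω
  norm_le : ∀ x, ‖X x‖ ≤ 1

/-- Relative perimeter `P(F; Ω)` (De Giorgi's definition, the total variation of the indicator
function of `F` in the open set `Ω`); the value is `∞` if `F` does not have finite perimeter. -/
noncomputable def relPerimeter {n : ℕ} (Ω F : Set (Sp n)) : ℝ≥0∞ :=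
  ⨆ (X : Sp n → Sp n) (_ : IsTestField Ω X), ENNReal.ofReal (∫ x in F, dvg X x)

/-- `E` is an isoperimetric set of volume fraction `α` relative to `Ω`. -/
structure IsIsoperimetric {n : ℕ} (Ω E : Set (Sp n)) (α : ℝ) : Prop where
  measurable : MeasurableSet E
  subset : E ⊆ Ω
  volume_eq : volume E = ENNReal.ofReal α * volume Ω
  minimal : ∀ F, MeasurableSet F → F ⊆ Ω → volume F = volume E →
    relPerimeter Ω E ≤ relPerimeter Ω F

/-- The canonical representative: the points of `Ω` at which `E` has Lebesgue density one. -/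
def densityOne {n : ℕ} (Ω E : Set (Sp n)) : Set (Sp n) :=
  {x ∈ Ω | Tendsto (fun r : ℝ => volume (E ∩ Metric.closedBall x r) /
    volume (Metric.closedBall x r)) (𝓝[>] 0) (𝓝 1)}

/-- The hull of `E`: the convex hull of its canonical representative. -/
def hull {n : ℕ} (Ω E : Set (Sp n)) : Set (Sp n) := convexHull ℝ (densityOne Ω E)

/-! ### The fibred domains -/

/-- The affine function `c₀ + c₁ x + c₂ y` on the plane. -/
def aff (c : Fin 3 → ℝ) (x y : ℝ) : ℝ := c 0 + c 1 * x + c 2 * y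

/-- The Euclidean norm of the planar part. -/
noncomputable def rad {M : ℕ} (v : Sp (M + 2)) : ℝ := Real.sqrt (v 0 ^ 2 + v 1 ^ 2)

/-- Open circular sector of radius `R` and half-angle `φ` around the positive `x`-axis. -/
def sector (R φ : ℝ) : Set (ℝ × ℝ) :=
  {p | p.1 ^ 2 + p.2 ^ 2 < R ^ 2 ∧ |p.2| * Real.cos φ < p.1 * Real.sin φ}

/-- The domain: thin product fibres over the sector. -/
def Dom {M : ℕ} (L : Fin M → Fin 3 → ℝ) (R φ ε : ℝ) : Set (Sp (M + 2)) :=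
  {v | (v 0, v 1) ∈ sector R φ ∧
    ∀ j : Fin M, 0 < v j.succ.succ ∧ v j.succ.succ < ε * aff (L j) (v 0) (v 1)}

/-- Parametrisation of the domain: polar coordinates and relative fibre coordinates. -/
noncomputable def par {M : ℕ} (L : Fin M → Fin 3 → ℝ) (ε r θ : ℝ) (z : Fin M → ℝ) : Sp (M + 2) :=
  WithLp.toLp 2 (Fin.cons (r * Real.cos θ) (Fin.cons (r * Real.sin θ)
    (fun j => ε * aff (L j) (r * Real.cos θ) (r * Real.sin θ) * z j)) : Fin (M + 2) → ℝ)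

/-- The open unit cube. -/
def cube (M : ℕ) : Set (Fin M → ℝ) := Set.univ.pi fun _ => Set.Ioo (0 : ℝ) 1

/-- Fibre average. -/
noncomputable def avg {M : ℕ} (L : Fin M → Fin 3 → ℝ) (ε : ℝ) (u : Sp (M + 2) → ℝ)
    (r θ : ℝ) : ℝ := ∫ z in cube M, u (par L ε r θ z)

/-! ### The model densities -/

/-- Radial density `r^(2m+1) e^(-r²/2)` (not normalised). -/
noncomputable def fr (m : ℕ) (r : ℝ) : ℝ := r ^ (2 * m + 1) * Real.exp (-(r ^ 2) / 2)

/-- Angular density `(sin² φ - sin² θ)^m` (not normalised). -/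
noncomputable def fa (m : ℕ) (φ θ : ℝ) : ℝ := (Real.sin φ ^ 2 - Real.sin θ ^ 2) ^ m

noncomputable def Zr (m : ℕ) (R : ℝ) : ℝ := ∫ r in (0 : ℝ)..R, fr m r

noncomputable def Za (m : ℕ) (φ : ℝ) : ℝ := ∫ θ in (-φ)..φ, fa m φ θ

/-- Normalised radial density on `(0, R)`. -/
noncomputable def f0 (m : ℕ) (R r : ℝ) : ℝ := fr m r / Zr m R

/-- Normalised angular density on `(-φ, φ)`. -/
noncomputable def w0 (m : ℕ) (φ θ : ℝ) : ℝ := fa m φ θ / Za m φ

/-! ### Admissible functions on the polar rectangle and stability -/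

/-- `h` is a `C¹` function of the polar coordinates with values in `[0,1]`, `hr`, `hθ` are its
partial derivatives and `N` dominates the length of its gradient. -/
structure Adm (R φ : ℝ) (h hr hθ N : ℝ → ℝ → ℝ) : Prop where
  hcont : Continuous (Function.uncurry h)
  hrcont : Continuous (Function.uncurry hr)
  hθcont : Continuous (Function.uncurry hθ)
  Ncont : Continuous (Function.uncurry N)
  nonneg : ∀ r θ, 0 ≤ h r θ
  le_one : ∀ r θ, h r θ ≤ 1
  deriv_r : ∀ r θ, HasDerivAt (fun r' => h r' θ) (hr r θ) r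
  deriv_θ : ∀ r θ, HasDerivAt (fun θ' => h r θ') (hθ r θ) θ
  star : ∀ r ∈ Icc 0 R, ∀ θ ∈ Icc (-φ) φ, ∀ c s : ℝ, 0 ≤ c → 0 ≤ s → c ^ 2 + s ^ 2 = 1 →
    c * |hr r θ| + s * (|hθ r θ| / R) ≤ N r θ

/-- Stability of the radial set `{r > b}` in the weighted polar rectangle. -/
def Stable (R φ : ℝ) (f ω : ℝ → ℝ) (α b : ℝ) : Prop :=
  ∀ τ : ℝ, 0 < τ → ∃ η : ℝ, 0 < η ∧ ∀ h hr hθ N : ℝ → ℝ → ℝ, Adm R φ h hr hθ N →
    |(∫ θ in (-φ)..φ, (∫ r in (0 : ℝ)..R, h r θ * f r) * ω θ) - α| ≤ η →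
    (∫ θ in (-φ)..φ, (∫ r in (0 : ℝ)..R, h r θ * (1 - h r θ) * f r) * ω θ) ≤ η →
    (∫ θ in (-φ)..φ, (∫ r in (0 : ℝ)..R, N r θ * f r) * ω θ) ≤ f b + η →
    (∫ θ in (-φ)..φ, ((∫ r in (0 : ℝ)..b, h r θ * f r) +
      ∫ r in b..R, (1 - h r θ) * f r) * ω θ) ≤ τ

/-- Radial data for which the one dimensional argument works. -/
structure RadOK (R : ℝ) (f : ℝ → ℝ) (α b d q B A : ℝ) : Prop where
  R_pos : 0 < R
  f_cont : Continuous f
  f_pos : ∀ r ∈ Ioo 0 R, 0 < f r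
  f_nonneg : ∀ r ∈ Icc 0 R, 0 ≤ f r
  f_int : ∫ r in (0 : ℝ)..R, f r = 1
  d_pos : 0 < d
  αd : d < α
  αd' : α + d < 1 / 2
  b_mem : b ∈ Ioo 0 R
  b_mass : ∫ r in b..R, f r = α
  /-- `f` is a concave function of its primitive -/
  conc : ∀ a r c : ℝ, 0 ≤ a → a ≤ r → r ≤ c → c ≤ R →
    f a * (∫ s in r..c, f s) + f c * (∫ s in a..r, f s) ≤ f r * (∫ s in a..c, f s)
  /-- the right tail is strictly cheaper than the left one -/
  tail : ∀ r₁ ∈ Ioo 0 R, ∀ r₂ ∈ Ioo 0 R, (∫ s in (0 : ℝ)..r₁, f s) = (∫ s in r₂..R, f s) →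
    |(∫ s in r₂..R, f s) - α| ≤ d → f r₂ < f r₁
  /-- second order lower bound for the price of the right tail -/
  quad : ∀ r₂ ∈ Ioo 0 R, |(∫ s in r₂..R, f s) - α| ≤ d →
    f b + q * ((∫ s in r₂..R, f s) - α) - B * ((∫ s in r₂..R, f s) - α) ^ 2 ≤ f r₂
  B_nonneg : 0 ≤ B
  A_le : f b + |q| + 1 ≤ A
  Bd : f b + |q| + 1 ≤ B * d ^ 2

/-- The product of the affine functions `L j` approximates the model weight. -/
def Approx {M : ℕ} (L : Fin M → Fin 3 → ℝ) (m : ℕ) (R φ κ : ℝ) : Prop :=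
  (∀ p ∈ sector R φ, ∀ j, 0 < aff (L j) p.1 p.2) ∧
  ∀ r ∈ Ioo 0 R, ∀ θ ∈ Ioo (-φ) φ,
    (1 - κ) * (fr m r * fa m φ θ) ≤ r * ∏ j, aff (L j) (r * Real.cos θ) (r * Real.sin θ) ∧
    r * ∏ j, aff (L j) (r * Real.cos θ) (r * Real.sin θ) ≤ fr m r * fa m φ θ

/-- All the data of the weighted planar model needed for the final construction. -/
structure Model (α δ : ℝ) (m : ℕ) (R φ b : ℝ) (lo hi tlo thi : Fin 4 → ℝ)
    (rlo rhi tq : ℝ) : Prop where
  R_pos : 0 < R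
  φ_pos : 0 < φ
  φ_lt : φ < π / 2
  b_mem : b ∈ Ioo 0 R
  b_mass : ∫ r in b..R, f0 m R r = α
  stable : Stable R φ (f0 m R) (w0 m φ) α b
  box_r : ∀ i, b ≤ lo i ∧ lo i < hi i ∧ hi i ≤ R
  box_θ : ∀ i, -φ ≤ tlo i ∧ tlo i < thi i ∧ thi i ≤ φ
  rlo_nonneg : 0 ≤ rlo
  rlo_le : rlo ≤ rhi
  rhi_le : rhi ≤ R
  tq_nonneg : 0 ≤ tq
  tq_le : tq ≤ φ
  hull_prop : ∀ ρ t : Fin 4 → ℝ, (∀ i, ρ i ∈ Ioo (lo i) (hi i)) → (∀ i, t i ∈ Ioo (tlo i) (thi i)) →
    ∀ r ∈ Icc rlo rhi, ∀ θ ∈ Icc (-tq) tq, (r * Real.cos θ, r * Real.sin θ) ∈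
      convexHull ℝ (Set.range fun i => (ρ i * Real.cos (t i), ρ i * Real.sin (t i)))
  mass : 1 - δ ≤ (∫ r in rlo..rhi, f0 m R r) * (∫ θ in (-tq)..tq, w0 m φ θ)

end Pool.Agent.Hull42
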